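import Pool.Agent.D0H34.KC.Stm

/-!
# Project KC, module FIB: integers with bounded conjugates
-/

set_option autoImplicit false

open Polynomial NumberField nonZeroDivisors

namespace Pool.Agent.D0H74.KC

open Pool.Agent.D0H34.KC

theorem floor_close {a b : ℝ} (h : ⌊2 * a⌋ = ⌊2 * b⌋) : |a - b| < 1 / 2 := by
  have h1 := Int.abs_sub_lt_one_of_floor_eq_floor h
  have h2 : 2 * a - 2 * b = 2 * (a - b) := by ring
  rw [h2, abs_mul, abs_of_pos (by norm_num : (0 : ℝ) < 2)] at h1
  linarith

theorem floor_mem {a : ℝ} {B : ℕ} (h : |a| ≤ B) :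
    ⌊2 * a⌋ ∈ Finset.Icc (-(2 * B : ℤ)) (2 * B) := by
  obtain ⟨h1, h2⟩ := abs_le.mp h
  rw [Finset.mem_Icc]
  constructor
  · rw [Int.le_floor]
    push_cast
    linarith
  · have h3 : ((⌊2 * a⌋ : ℤ) : ℝ) ≤ ((2 * B : ℤ) : ℝ) := by
      refine (Int.floor_le _).trans ?_
      push_cast
      linarith
    exact_mod_cast h3

theorem t_FIB : S_FIB := by
  classical
  intro F _ _ B S hS
  let g : 𝓞 F → (InfinitePlace F × Bool → ℤ) := fun x p =>
    if p.2 then ⌊2 * (p.1.embedding (x : F)).re⌋ else ⌊2 * (p.1.embedding (x : F)).im⌋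
  have hmaps : ∀ x ∈ S, g x ∈
      Fintype.piFinset (fun _ : InfinitePlace F × Bool => Finset.Icc (-(2 * B : ℤ)) (2 * B)) := by
    intro x hx
    rw [Fintype.mem_piFinset]
    rintro ⟨v, b⟩
    have h1 := hS x hx v.embedding
    cases b
    · exact floor_mem ((Complex.abs_im_le_norm _).trans h1)
    · exact floor_mem ((Complex.abs_re_le_norm _).trans h1)
  have hinj : Set.InjOn g S := by
    intro x _ y _ hxy
    by_contra hne
    have hz : x - y ≠ 0 := sub_ne_zero.mpr hne
    have hall : ∀ v : InfinitePlace F, v ((x - y : 𝓞 F) : F) < 1 := by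
      intro v
      have h1 : |(v.embedding (x : F)).re - (v.embedding (y : F)).re| < 1 / 2 := by
        have := congrFun hxy (v, true)
        simp only [g, if_true] at this
        exact floor_close this
      have h2 : |(v.embedding (x : F)).im - (v.embedding (y : F)).im| < 1 / 2 := by
        have := congrFun hxy (v, false)
        simp only [g, Bool.false_eq_true, if_false] at this
        exact floor_close this
      have e : v.embedding ((x - y : 𝓞 F) : F) = v.embedding (x : F) - v.embedding (y : F) := by
        rw [← map_sub]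
        congr 1
      rw [← InfinitePlace.norm_embedding_eq, e]
      have h3 : ‖v.embedding (x : F) - v.embedding (y : F)‖ ≤
          |(v.embedding (x : F) - v.embedding (y : F)).re| +
            |(v.embedding (x : F) - v.embedding (y : F)).im| := Complex.norm_le_abs_re_add_abs_im _
      rw [Complex.sub_re, Complex.sub_im] at h3
      linarith
    obtain ⟨w⟩ : Nonempty (InfinitePlace F) := inferInstance
    have h1 := InfinitePlace.one_le_of_lt_one (w := w) hz (fun z _ => hall z)
    exact absurd (hall w) (not_lt.mpr h1)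
  have hcard := Finset.card_le_card_of_injOn g hmaps hinj
  refine hcard.trans (le_of_eq ?_)
  rw [Fintype.card_piFinset, Finset.prod_const, Finset.card_univ, Int.card_Icc, Fintype.card_prod,
    Fintype.card_bool]
  have : (2 * (B : ℤ) + 1 - -(2 * (B : ℤ))).toNat = 4 * B + 1 := by omega
  rw [this, mul_comm 2 (Fintype.card (InfinitePlace F))]

end Pool.Agent.D0H74.KC
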